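import Mathlib
import Pool.Agent.Helper22.ETModel
import Pool.Agent.Helper8.VT.Defs

/-!
# Votes with messages

The classes of vertices are the residues modulo 3. A clerk belongs to a vertex of class `0`. The
side `pq` consists of the cells between the classes `p` and `q`.
-/

set_option autoImplicit false

namespace Pool.Agent.Helper5.RV

open Pool.Agent.Helper22.ETModel Pool.Agent.Helper8.VT

/-- The cell `u v` lies between the classes `p` and `q`. -/
def Side {n : ℕ} (p q : ℕ) (u v : Fin n) : Prop :=
  ((u : ℕ) % 3 = p ∧ (v : ℕ) % 3 = q) ∨ ((u : ℕ) % 3 = q ∧ (v : ℕ) % 3 = p)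

instance {n : ℕ} (p q : ℕ) (u v : Fin n) : Decidable (Side p q u v) := by
  unfold Side; infer_instance

/-- The weights with the side `pq` filled with zeros. -/
def hide {n : ℕ} (p q : ℕ) (w : Wts n) : Wts n := fun u v => if Side p q u v then 0 else w u v

/-- What the clerk of the vertex `c` knows: the side `12` is filled with zeros, and so are the
cells of the side `02` that do not contain `c`. -/
def clerkView {n : ℕ} (c : Fin n) (w : Wts n) : Wts n := fun u v =>
  if Side 1 2 u v ∨ (Side 0 2 u v ∧ u ≠ c ∧ v ≠ c) then 0 else w u v

/-- What Bob knows: the side `02` is filled with zeros. -/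
def bobView {n : ℕ} (w : Wts n) : Wts n := hide 0 2 w

/-- Conversations in which the clerk says at most `a` bits and Bob says at most `b` bits. Every bit
depends in an arbitrary way on what the speaker knows and on the bits said before. The vote at the
end is an arbitrary real function of what the clerk knows and of the bits said. -/
inductive Conv (n : ℕ) : ℕ → ℕ → Type
  | vote {a b : ℕ} (v : Wts n → ℝ) : Conv n a b
  | clerk {a b : ℕ} (bit : Wts n → Bool) (next : Bool → Conv n a b) : Conv n (a + 1) b
  | bob {a b : ℕ} (bit : Wts n → Bool) (next : Bool → Conv n a b) : Conv n a (b + 1)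

/-- The vote if the clerk knows `A` and Bob knows `C`. -/
def Conv.eval {n : ℕ} : {a b : ℕ} → Conv n a b → Wts n → Wts n → ℝ
  | _, _, .vote v, A, _ => v A
  | _, _, .clerk bit next, A, C => (next (bit A)).eval A C
  | _, _, .bob bit next, A, C => (next (bit C)).eval A C

/-- `H` ignores the weights of one of the three sides (all voters know the flags). -/
def IsFree {n : ℕ} (H : Inst n → ℝ) : Prop :=
  ∃ p q : ℕ, p < q ∧ q < 3 ∧ ∃ F : Flags n → Wts n → ℝ, ∀ I : Inst n, I.Valid →
    H I = F I.flag (hide p q I.wt)

/-- `H` is computed by conversations of Bob and the clerk of a vertex `c` of class `0` in which the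
clerk says at most `a` bits and Bob says at most `b` bits. -/
def IsConv {n : ℕ} (a b : ℕ) (H : Inst n → ℝ) : Prop :=
  ∃ c : Fin n, (c : ℕ) % 3 = 0 ∧ ∃ P : Flags n → Conv n a b, ∀ I : Inst n, I.Valid →
    H I = (P I.flag).eval (clerkView c I.wt) (bobView I.wt)

/-- `κ` is the price of the voter `H`: `0` for a voter that ignores one of the three sides,
`b * 2 ^ a` for a conversation in which the clerk says at most `a` and Bob at most `b` bits. -/
def Price {n : ℕ} (H : Inst n → ℝ) (κ : ℝ) : Prop :=
  (κ = 0 ∧ IsFree H) ∨ ∃ a b : ℕ, IsConv a b H ∧ κ = (b : ℝ) * 2 ^ a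

end Pool.Agent.Helper5.RV
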