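import Mathlib
import Pool.Agent.Helper62.EV.Infl

/-!
# Level sets of the rows

`w` is a matrix of random values with rows `i : ι`; `F w = c + ∑ i, g i (w i)`. If one cell of the
row `i` is changed into a fixed value `v` and `F` becomes positive, then either the new row lies in
the top part of `g i`, or a random change of the row makes `F` positive with a big probability.
-/

set_option autoImplicit false

namespace Pool.Agent.Helper5.RV

open Finset

/-- the number of points that are at least as high as `u` -/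
noncomputable def above {X : Type*} [Fintype X] (g : X → ℝ) (u : X) : ℕ := by
  classical exact (univ.filter fun u' => g u ≤ g u').card

/-- `u` is in the top part of `g` -/
def Top {X : Type*} [Fintype X] (ρ : ℝ) (g : X → ℝ) (u : X) : Prop :=
  (above g u : ℝ) ≤ ρ * Fintype.card X

/-- indicator -/
noncomputable def ind (p : Prop) : ℝ := by classical exact if p then 1 else 0

theorem ind_nonneg (p : Prop) : 0 ≤ ind p := by
  unfold ind; split_ifs <;> norm_num

theorem ind_le_one (p : Prop) : ind p ≤ 1 := by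
  unfold ind; split_ifs <;> norm_num

theorem ind_of {p : Prop} (h : p) : ind p = 1 := by
  unfold ind; rw [if_pos h]

theorem ind_of_not {p : Prop} (h : ¬ p) : ind p = 0 := by
  unfold ind; rw [if_neg h]

theorem ind_mono {p q : Prop} (h : p → q) : ind p ≤ ind q := by
  by_cases hp : p
  · rw [ind_of hp, ind_of (h hp)]
  · rw [ind_of_not hp]; exact ind_nonneg q

/-- the size of the top part -/
theorem card_top {X : Type*} [Fintype X] (ρ : ℝ) (hρ : 0 ≤ ρ) (g : X → ℝ) :
    ∑ u, ind (Top ρ g u) ≤ ρ * Fintype.card X := by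
  classical
  have h0 : ∑ u, ind (Top ρ g u) = ((univ.filter fun u => Top ρ g u).card : ℝ) := by
    unfold ind
    rw [Finset.card_filter]
    push_cast
    rfl
  rw [h0]
  rcases (univ.filter fun u => Top ρ g u).eq_empty_or_nonempty with h | h
  · rw [h, card_empty, Nat.cast_zero]; positivity
  · obtain ⟨u0, hu0, hmin⟩ := exists_min_image _ g h
    have hu1 : Top ρ g u0 := (mem_filter.1 hu0).2
    refine le_trans ?_ hu1
    unfold above
    refine Nat.cast_le.2 (card_le_card fun u hu => ?_)
    exact mem_filter.2 ⟨mem_univ _, hmin u hu⟩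

variable {ι K R : Type} [Fintype ι] [DecidableEq ι] [Fintype K] [DecidableEq K] [Fintype R]
  [Nonempty R]

/-- the row sums -/
def sm {X : Type} (c : ℝ) (g : ι → X → ℝ) (w : ι → X) : ℝ := c + ∑ i, g i (w i)

/-- `F` becomes positive -/
noncomputable def jump {W : Type} (F : W → ℝ) (w w' : W) : ℝ := ind (F w ≤ 0 ∧ 0 < F w')

/-- the cell `i k` gets the value `v` -/
def pl (w : ι → K → R) (i : ι) (k : K) (v : R) : ι → K → R :=
  Function.update w i (Function.update (w i) k v)

/-- the probability that the row is in the top part if the cell `k` gets the value `v` -/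
noncomputable def ptop (ρ : ℝ) (g : (K → R) → ℝ) (k : K) (v : R) : ℝ :=
  (∑ u : K → R, ind (Top ρ g (Function.update u k v))) / Fintype.card (K → R)

omit [Nonempty R] in
theorem ptop_nonneg (ρ : ℝ) (g : (K → R) → ℝ) (k : K) (v : R) : 0 ≤ ptop ρ g k v :=
  div_nonneg (sum_nonneg fun _ _ => ind_nonneg _) (Nat.cast_nonneg _)

theorem card_row_pos : (0 : ℝ) < Fintype.card (K → R) := by
  exact_mod_cast Fintype.card_pos

theorem ptop_le_one (ρ : ℝ) (g : (K → R) → ℝ) (k : K) (v : R) : ptop ρ g k v ≤ 1 := by
  unfold ptop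
  rw [div_le_one card_row_pos]
  refine (sum_le_sum fun u _ => ind_le_one _).trans ?_
  rw [sum_const, card_univ, nsmul_eq_mul, mul_one]

theorem sum_ptop (ρ : ℝ) (hρ : 0 ≤ ρ) (g : (K → R) → ℝ) (k : K) :
    ∑ v, ptop ρ g k v ≤ ρ * Fintype.card R := by
  unfold ptop
  rw [← sum_div, sum_comm, Pool.Agent.Helper62.EV.sum_update k (fun u => ind (Top ρ g u)),
    div_le_iff₀ card_row_pos]
  have := mul_le_mul_of_nonneg_left (card_top ρ hρ g) (Nat.cast_nonneg (α := ℝ) (Fintype.card R))
  linarith

/-- the top part of a constant function is empty -/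
theorem ptop_const (ρ : ℝ) (hρ : ρ < 1) (c : ℝ) (k : K) (v : R) :
    ptop ρ (fun _ => c) k v = 0 := by
  unfold ptop
  have h : ∀ u : K → R, ¬ Top ρ (fun _ : K → R => c) u := by
    intro u hu
    unfold Top above at hu
    have h1 : (univ.filter fun _ : K → R => (c : ℝ) ≤ c) = univ := by
      ext; simp
    simp only [le_refl, filter_true, card_univ] at hu
    have := card_row_pos (K := K) (R := R)
    nlinarith
  rw [sum_eq_zero fun u _ => ind_of_not (h _), zero_div]

/-- one row -/
theorem level (ρ : ℝ) (hρ : 0 < ρ) (c : ℝ) (g : ι → (K → R) → ℝ) (w : ι → K → R) (i : ι) (k : K)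
    (v : R) :
    jump (sm c g) w (pl w i k v) ≤ ind (Top ρ (g i) (Function.update (w i) k v)) +
      (∑ u, jump (sm c g) w (Function.update w i u)) / (ρ * Fintype.card (K → R)) := by
  classical
  have hX := card_row_pos (K := K) (R := R)
  have hX' : 0 < ρ * (Fintype.card (K → R) : ℝ) := mul_pos hρ hX
  have hs : 0 ≤ (∑ u, jump (sm c g) w (Function.update w i u)) / (ρ * Fintype.card (K → R)) :=
    div_nonneg (sum_nonneg fun _ _ => ind_nonneg _) hX'.le
  by_cases hj : sm c g w ≤ 0 ∧ 0 < sm c g (pl w i k v)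
  · by_cases ht : Top ρ (g i) (Function.update (w i) k v)
    · rw [ind_of ht]
      have := ind_le_one (sm c g w ≤ 0 ∧ 0 < sm c g (pl w i k v))
      unfold jump at *
      linarith
    · rw [ind_of_not ht, zero_add]
      have h1 : jump (sm c g) w (pl w i k v) = 1 := ind_of hj
      rw [h1, le_div_iff₀ hX', one_mul]
      have h2 : ρ * (Fintype.card (K → R) : ℝ) <
          above (g i) (Function.update (w i) k v) := by
        unfold Top at ht; push Not at ht; exact ht
      refine h2.le.trans ?_
      have h3 : (above (g i) (Function.update (w i) k v) : ℝ) =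
          ∑ u, ind (g i (Function.update (w i) k v) ≤ g i u) := by
        unfold above ind
        rw [Finset.card_filter]
        push_cast
        rfl
      rw [h3]
      refine sum_le_sum fun u _ => ind_mono fun hu => ⟨hj.1, lt_of_lt_of_le hj.2 ?_⟩
      unfold sm pl
      have h4 : ∀ z : K → R, ∑ j, g j (Function.update w i z j) =
          g i z + ∑ j ∈ univ.erase i, g j (w j) := by
        intro z
        rw [← add_sum_erase univ _ (mem_univ i), Function.update_self]
        congr 1
        refine sum_congr rfl fun j hj => ?_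
        rw [Function.update_of_ne (ne_of_mem_erase hj)]
      rw [h4, h4]
      linarith
  · have h1 : jump (sm c g) w (pl w i k v) = 0 := ind_of_not hj
    rw [h1]
    exact add_nonneg (ind_nonneg _) hs

/-- the mean of a function of one row -/
theorem sum_row {X : Type} [Fintype X] [Nonempty X] (i : ι) (f : X → ℝ) :
    (Fintype.card X : ℝ) * ∑ w : ι → X, f (w i) = (Fintype.card (ι → X) : ℝ) * ∑ u, f u := by
  rw [← Pool.Agent.Helper62.EV.sum_update i (fun w : ι → X => f (w i))]
  simp only [Function.update_self]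
  rw [sum_const, card_univ, nsmul_eq_mul]

/-- all cells -/
theorem step (ρ : ℝ) (hρ : 0 < ρ) (c : ℝ) (g : ι → (K → R) → ℝ) (v : ι → K → R) :
    ∑ i, ∑ k, ∑ w, jump (sm c g) w (pl w i k (v i k)) ≤
      (Fintype.card (ι → K → R) : ℝ) * ((∑ i, ∑ k, ptop ρ (g i) k (v i k)) +
        Fintype.card K * √(Fintype.card ι) / (2 * ρ)) := by
  classical
  have hX := card_row_pos (K := K) (R := R)
  have hX' : 0 < ρ * (Fintype.card (K → R) : ℝ) := mul_pos hρ hX
  have hinf := Pool.Agent.Helper62.EV.infl (ι := ι) g c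
  have hinf' : ∑ i : ι, ∑ w : ι → K → R, ∑ u : K → R,
      jump (sm c g) w (Function.update w i u) ≤
      √(Fintype.card ι) / 2 * (Fintype.card (K → R) : ℝ) ^ (Fintype.card ι + 1) := by
    refine le_trans (le_of_eq ?_) hinf
    unfold jump sm ind
    refine sum_congr rfl fun i _ => sum_congr rfl fun w _ => sum_congr rfl fun u _ => ?_
    by_cases h : c + ∑ i, g i (w i) ≤ 0 ∧ 0 < c + ∑ i_1, g i_1 (Function.update w i u i_1)
    · rw [if_pos h, if_pos h]
    · rw [if_neg h, if_neg h]
  have h1 : ∑ i, ∑ k, ∑ w, jump (sm c g) w (pl w i k (v i k)) ≤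
      ∑ i, ∑ k, ((∑ w : ι → K → R, ind (Top ρ (g i) (Function.update (w i) k (v i k)))) +
        (∑ w : ι → K → R, ∑ u, jump (sm c g) w (Function.update w i u)) /
          (ρ * Fintype.card (K → R))) := by
    refine sum_le_sum fun i _ => sum_le_sum fun k _ => ?_
    rw [sum_div, ← sum_add_distrib]
    exact sum_le_sum fun w _ => level ρ hρ c g w i k (v i k)
  refine h1.trans ?_
  have h2 : ∀ i k, ∑ w : ι → K → R, ind (Top ρ (g i) (Function.update (w i) k (v i k))) =
      (Fintype.card (ι → K → R) : ℝ) * ptop ρ (g i) k (v i k) := by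
    intro i k
    have := sum_row (ι := ι) (X := K → R) i (fun u => ind (Top ρ (g i) (Function.update u k (v i k))))
    unfold ptop
    field_simp
    linarith
  simp_rw [sum_add_distrib]
  simp_rw [h2]
  have h3 : ∑ i : ι, ∑ _k : K, (∑ w : ι → K → R, ∑ u, jump (sm c g) w (Function.update w i u)) /
      (ρ * Fintype.card (K → R)) ≤ (Fintype.card (ι → K → R) : ℝ) *
        (Fintype.card K * √(Fintype.card ι) / (2 * ρ)) := by
    simp_rw [sum_const, card_univ, nsmul_eq_mul]
    rw [← mul_sum, ← sum_div]
    have h4 : (Fintype.card (ι → K → R) : ℝ) = (Fintype.card (K → R) : ℝ) ^ Fintype.card ι := by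
      rw [Fintype.card_fun]; push_cast; rfl
    have h5 : (∑ i : ι, ∑ w : ι → K → R, ∑ u, jump (sm c g) w (Function.update w i u)) /
        (ρ * Fintype.card (K → R)) ≤ (Fintype.card (ι → K → R) : ℝ) *
          (√(Fintype.card ι) / (2 * ρ)) := by
      rw [div_le_iff₀ hX']
      refine hinf'.trans (le_of_eq ?_)
      rw [h4, pow_succ]
      field_simp
    calc (Fintype.card K : ℝ) * ((∑ i : ι, ∑ w : ι → K → R, ∑ u,
          jump (sm c g) w (Function.update w i u)) / (ρ * Fintype.card (K → R)))
        ≤ Fintype.card K * ((Fintype.card (ι → K → R) : ℝ) * (√(Fintype.card ι) / (2 * ρ))) :=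
          mul_le_mul_of_nonneg_left h5 (Nat.cast_nonneg _)
      _ = _ := by ring
  have h6 : ∑ i, ∑ k, (Fintype.card (ι → K → R) : ℝ) * ptop ρ (g i) k (v i k) =
      (Fintype.card (ι → K → R) : ℝ) * ∑ i, ∑ k, ptop ρ (g i) k (v i k) := by
    simp_rw [← mul_sum]
  rw [h6, mul_add]
  exact add_le_add le_rfl h3

/-- all cells outside the row `i₁`, in a matrix where one cell of the row `i₁` is fixed -/
theorem step_bg (ρ : ℝ) (hρ : 0 < ρ) (hρ1 : ρ < 1) (c : ℝ) (g : ι → (K → R) → ℝ) (v : ι → K → R)
    (i₁ : ι) (k₁ : K) (v₁ : R) :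
    ∑ i, ∑ k, ∑ w, ind (i ≠ i₁) * jump (sm c g) (pl w i₁ k₁ v₁)
        (pl (pl w i₁ k₁ v₁) i k (v i k)) ≤
      (Fintype.card (ι → K → R) : ℝ) * ((∑ i, ∑ k, ptop ρ (g i) k (v i k)) +
        Fintype.card K * √(Fintype.card ι) / (2 * ρ)) := by
  classical
  have hX := card_row_pos (K := K) (R := R)
  let G : (K → R) → ι → (K → R) → ℝ := fun u =>
    Function.update g i₁ (fun _ => g i₁ (Function.update u k₁ v₁))
  have hsm : ∀ (w : ι → K → R), sm c g (pl w i₁ k₁ v₁) = sm c (G (w i₁)) w := by
    intro w
    unfold sm pl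
    congr 1
    refine sum_congr rfl fun j _ => ?_
    by_cases hj : j = i₁
    · subst hj
      simp only [G, Function.update_self]
    · simp only [G, Function.update_of_ne hj]
  have hpl : ∀ (w : ι → K → R) i k (z : R), i ≠ i₁ →
      pl (pl w i₁ k₁ v₁) i k z = pl (pl w i k z) i₁ k₁ v₁ := by
    intro w i k z hi
    unfold pl
    rw [Function.update_of_ne hi, Function.update_of_ne (Ne.symm hi), Function.update_comm hi.symm]
  have hpl1 : ∀ (w : ι → K → R) i k (z : R), i ≠ i₁ → (pl w i k z) i₁ = w i₁ := by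
    intro w i k z hi
    unfold pl
    rw [Function.update_of_ne (Ne.symm hi)]
  have hjump : ∀ (w : ι → K → R) i k, ind (i ≠ i₁) * jump (sm c g) (pl w i₁ k₁ v₁)
      (pl (pl w i₁ k₁ v₁) i k (v i k)) =
      ind (i ≠ i₁) * jump (sm c (G (w i₁))) w (pl w i k (v i k)) := by
    intro w i k
    by_cases hi : i ≠ i₁
    · unfold jump
      rw [hpl w i k _ hi, hsm, hsm, hpl1 w i k _ hi]
    · rw [ind_of_not hi, zero_mul, zero_mul]
  have hindep : ∀ (u z : K → R) (w : ι → K → R) i k, ind (i ≠ i₁) *
      jump (sm c (G u)) (Function.update w i₁ z) (pl (Function.update w i₁ z) i k (v i k)) =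
      ind (i ≠ i₁) * jump (sm c (G u)) w (pl w i k (v i k)) := by
    intro u z w i k
    by_cases hi : i ≠ i₁
    · have h1 : ∀ w' : ι → K → R, sm c (G u) (Function.update w' i₁ z) = sm c (G u) w' := by
        intro w'
        unfold sm
        congr 1
        refine sum_congr rfl fun j _ => ?_
        by_cases hj : j = i₁
        · subst hj
          simp only [G, Function.update_self]
        · rw [Function.update_of_ne hj]
      have h2 : pl (Function.update w i₁ z) i k (v i k) =
          Function.update (pl w i k (v i k)) i₁ z := by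
        unfold pl
        rw [Function.update_of_ne hi, Function.update_comm hi.symm]
      unfold jump
      rw [h2, h1, h1]
    · rw [ind_of_not hi, zero_mul, zero_mul]
  have hkey : ∀ i k, (Fintype.card (K → R) : ℝ) * ∑ w : ι → K → R,
      ind (i ≠ i₁) * jump (sm c g) (pl w i₁ k₁ v₁) (pl (pl w i₁ k₁ v₁) i k (v i k)) =
      ∑ u : K → R, ∑ w : ι → K → R, ind (i ≠ i₁) * jump (sm c (G u)) w (pl w i k (v i k)) := by
    intro i k
    simp_rw [hjump]
    rw [← Pool.Agent.Helper62.EV.sum_update i₁ (fun w : ι → K → R =>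
      ind (i ≠ i₁) * jump (sm c (G (w i₁))) w (pl w i k (v i k))), sum_comm]
    refine sum_congr rfl fun u _ => sum_congr rfl fun w _ => ?_
    rw [Function.update_self]
    exact hindep u u w i k
  have hG : ∀ u i k, ptop ρ (G u i) k (v i k) ≤ ptop ρ (g i) k (v i k) := by
    intro u i k
    by_cases hi : i = i₁
    · subst hi
      have : G u i = fun _ => g i (Function.update u k₁ v₁) := by simp only [G, Function.update_self]
      rw [this, ptop_const ρ hρ1]
      exact ptop_nonneg _ _ _ _
    · simp only [G, Function.update_of_ne hi]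
      exact le_rfl
  have h1 : (Fintype.card (K → R) : ℝ) * (∑ i, ∑ k, ∑ w, ind (i ≠ i₁) *
      jump (sm c g) (pl w i₁ k₁ v₁) (pl (pl w i₁ k₁ v₁) i k (v i k))) ≤
      (Fintype.card (K → R) : ℝ) * ((Fintype.card (ι → K → R) : ℝ) *
        ((∑ i, ∑ k, ptop ρ (g i) k (v i k)) + Fintype.card K * √(Fintype.card ι) / (2 * ρ))) := by
    rw [mul_sum]
    simp_rw [mul_sum (s := (univ : Finset K)), hkey]
    have h2 : ∑ i, ∑ k, ∑ u : K → R, ∑ w : ι → K → R,
        ind (i ≠ i₁) * jump (sm c (G u)) w (pl w i k (v i k)) =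
        ∑ u : K → R, ∑ i, ∑ k, ∑ w : ι → K → R,
        ind (i ≠ i₁) * jump (sm c (G u)) w (pl w i k (v i k)) := by
      rw [sum_comm' (t' := univ) (s' := fun _ => univ) (by simp)]
      simp_rw [sum_comm (s := (univ : Finset K))]
      rw [sum_comm]
    rw [h2]
    calc ∑ u : K → R, ∑ i, ∑ k, ∑ w : ι → K → R,
          ind (i ≠ i₁) * jump (sm c (G u)) w (pl w i k (v i k))
        ≤ ∑ _u : K → R, ((Fintype.card (ι → K → R) : ℝ) *
        ((∑ i, ∑ k, ptop ρ (g i) k (v i k)) + Fintype.card K * √(Fintype.card ι) / (2 * ρ))) := by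
          refine sum_le_sum fun u _ => ?_
          refine le_trans ?_ ((step ρ hρ c (G u) v).trans ?_)
          · refine sum_le_sum fun i _ => sum_le_sum fun k _ => sum_le_sum fun w _ => ?_
            have h3 := ind_le_one (i ≠ i₁)
            have h4 : 0 ≤ jump (sm c (G u)) w (pl w i k (v i k)) := ind_nonneg _
            nlinarith
          · refine mul_le_mul_of_nonneg_left (add_le_add ?_ le_rfl) (Nat.cast_nonneg _)
            exact sum_le_sum fun i _ => sum_le_sum fun k _ => hG u i k
      _ = _ := by rw [sum_const, card_univ, nsmul_eq_mul]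
  exact le_of_mul_le_mul_left h1 hX

end Pool.Agent.Helper5.RV
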