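import Mathlib
import Pool.Agent.Helper5.RV.Defs
import Pool.Agent.Helper5.RV.Level

/-!
# Normal form of the votes, and the random instance

The weights between the classes `0` and `1` are `x`, those between the classes `1` and `2` are `y`,
both with values in `Fin m`; the weights between the classes `0` and `2` are `-w`, with `w` in
`Fin (2 m)`, written as rows. So a triangle `i j k` has the sum zero if and only if
`w i k = x (i, j) + y (j, k)`.
-/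

set_option autoImplicit false

namespace Pool.Agent.Helper5.RV

open Finset Pool.Agent.Helper22.ETModel Pool.Agent.Helper8.VT

/-- the sum -/
def pa {m : ℕ} (a b : Fin m) : Fin (2 * m) := ⟨(a : ℕ) + b, by omega⟩

/-- there is a triangle with sum zero -/
def YesC {I J K : Type} {m : ℕ} (x : I × J → Fin m) (y : J × K → Fin m)
    (w : I → K → Fin (2 * m)) : Prop :=
  ∃ i j k, w i k = pa (x (i, j)) (y (j, k))

/-- the triangle `i₁ j₁ k₁` of `x, y` and the triangle `i₂ j₂ k₂` of `x', y'` are planted -/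
def plant2 {I J K : Type} [DecidableEq I] [DecidableEq K] {m : ℕ} (x x' : I × J → Fin m)
    (y y' : J × K → Fin m) (w : I → K → Fin (2 * m)) (i₁ : I) (j₁ : J) (k₁ : K) (i₂ : I) (j₂ : J)
    (k₂ : K) : I → K → Fin (2 * m) :=
  pl (pl w i₁ k₁ (pa (x (i₁, j₁)) (y (j₁, k₁)))) i₂ k₂ (pa (x' (i₂, j₂)) (y' (j₂, k₂)))

/-- Normal form: up to functions of two of the three sides the vote is a sum over the rows `i` of
functions of `x`, of the row `i` of `w` and of a message of `b i` bits about `x` and `y`; all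
messages together have at most `B` bits. -/
def NForm {I J K : Type} [Fintype I] (m B : ℕ)
    (V : (I × J → Fin m) → (J × K → Fin m) → (I → K → Fin (2 * m)) → ℝ) : Prop :=
  ∃ (E₁ : (I × J → Fin m) → (J × K → Fin m) → ℝ)
    (E₂ : (I × J → Fin m) → (I → K → Fin (2 * m)) → ℝ)
    (E₃ : (J × K → Fin m) → (I → K → Fin (2 * m)) → ℝ) (b : I → ℕ)
    (g : ∀ i : I, (I × J → Fin m) → Fin (2 ^ b i) → (K → Fin (2 * m)) → ℝ)
    (h : ∀ i : I, (I × J → Fin m) → (J × K → Fin m) → Fin (2 ^ b i)),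
    ∑ i, b i ≤ B ∧ ∀ x y w, V x y w = E₁ x y + E₂ x w + E₃ y w + ∑ i, g i x (h i x y) (w i)

/-- the vertices of the class `p` -/
abbrev Cls (n p : ℕ) : Type := {v : Fin n // (v : ℕ) % 3 = p}

/-- the weights of the instance with the sides `x`, `y`, `-w` -/
def wts {n m : ℕ} (x : Cls n 0 × Cls n 1 → Fin m) (y : Cls n 1 × Cls n 2 → Fin m)
    (w : Cls n 0 → Cls n 2 → Fin (2 * m)) : Wts n := fun u v =>
  if h : (u : ℕ) % 3 = 0 ∧ (v : ℕ) % 3 = 1 then ((x (⟨u, h.1⟩, ⟨v, h.2⟩) : ℕ) : ℤ)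
  else if h : (u : ℕ) % 3 = 1 ∧ (v : ℕ) % 3 = 0 then ((x (⟨v, h.2⟩, ⟨u, h.1⟩) : ℕ) : ℤ)
  else if h : (u : ℕ) % 3 = 1 ∧ (v : ℕ) % 3 = 2 then ((y (⟨u, h.1⟩, ⟨v, h.2⟩) : ℕ) : ℤ)
  else if h : (u : ℕ) % 3 = 2 ∧ (v : ℕ) % 3 = 1 then ((y (⟨v, h.2⟩, ⟨u, h.1⟩) : ℕ) : ℤ)
  else if h : (u : ℕ) % 3 = 0 ∧ (v : ℕ) % 3 = 2 then -((w ⟨u, h.1⟩ ⟨v, h.2⟩ : ℕ) : ℤ)
  else if h : (u : ℕ) % 3 = 2 ∧ (v : ℕ) % 3 = 0 then -((w ⟨v, h.2⟩ ⟨u, h.1⟩ : ℕ) : ℤ)
  else 0

/-- the complete tripartite instance with the sides `x`, `y`, `-w` -/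
def mk {n m : ℕ} (x : Cls n 0 × Cls n 1 → Fin m) (y : Cls n 1 × Cls n 2 → Fin m)
    (w : Cls n 0 → Cls n 2 → Fin (2 * m)) : Inst n where
  flag u v := decide ((u : ℕ) % 3 ≠ (v : ℕ) % 3)
  wt := wts x y w

end Pool.Agent.Helper5.RV
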