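import Mathlib
import Pool.Agent.Helper5.RV.Sys
import Pool.Agent.Helper53.RV.Count

/-!
# The four steps

The alternating sum `D w = V x y w - V x' y w - V x y' w + V x' y' w` is a constant plus a sum over
the rows of `w`.
-/

set_option autoImplicit false

namespace Pool.Agent.Helper5.RV

open Finset

variable {I J K : Type} [Fintype I] [DecidableEq I] [Fintype J] [DecidableEq J] [Fintype K]
  [DecidableEq K] {m : ℕ}

/-- the alternating sum -/
def dd (V : (I × J → Fin m) → (J × K → Fin m) → (I → K → Fin (2 * m)) → ℝ)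
    (x x' : I × J → Fin m) (y y' : J × K → Fin m) (w : I → K → Fin (2 * m)) : ℝ :=
  V x y w - V x' y w - V x y' w + V x' y' w

/-- the alternating sum of the vote of one row -/
def del {b : I → ℕ} (g : ∀ i : I, (I × J → Fin m) → Fin (2 ^ b i) → (K → Fin (2 * m)) → ℝ)
    (h : ∀ i : I, (I × J → Fin m) → (J × K → Fin m) → Fin (2 ^ b i))
    (x x' : I × J → Fin m) (y y' : J × K → Fin m) (i : I) (u : K → Fin (2 * m)) : ℝ :=
  g i x (h i x y) u - g i x' (h i x' y) u - g i x (h i x y') u + g i x' (h i x' y') u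

omit [Fintype I] [DecidableEq I] [Fintype J] [DecidableEq J] [Fintype K] [DecidableEq K] in
theorem del_swap {b : I → ℕ} (g : ∀ i : I, (I × J → Fin m) → Fin (2 ^ b i) →
    (K → Fin (2 * m)) → ℝ) (h : ∀ i : I, (I × J → Fin m) → (J × K → Fin m) → Fin (2 ^ b i))
    (x x' : I × J → Fin m) (y y' : J × K → Fin m) : del g h x' x y' y = del g h x x' y y' := by
  funext i u; unfold del; ring

theorem sum_pa (f : Fin (2 * m) → ℝ) (hf : ∀ z, 0 ≤ f z) (a : Fin m) :
    ∑ v : Fin m, f (pa a v) ≤ ∑ z, f z := by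
  classical
  have hinj : Function.Injective (pa a) := by
    intro v v' h
    have := congrArg Fin.val h
    simp only [pa] at this
    exact Fin.ext (by omega)
  rw [← sum_image (s := univ) (g := pa a) (fun v _ v' _ h => hinj h)]
  exact sum_le_sum_of_subset_of_nonneg (subset_univ _) fun z _ _ => hf z

/-- the sum over the planted values in the top parts -/
noncomputable def AA (ρ : ℝ) (G : I → (K → Fin (2 * m)) → ℝ) (x : I × J → Fin m)
    (y : J × K → Fin m) : ℝ :=
  ∑ i, ∑ j, ∑ k, ptop ρ (G i) k (pa (x (i, j)) (y (j, k)))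

theorem sum_ptop_pa (hm : 0 < m) (ρ : ℝ) (hρ : 0 ≤ ρ) (G : (K → Fin (2 * m)) → ℝ) (k : K)
    (a : Fin m) : ∑ v : Fin m, ptop ρ G k (pa a v) ≤ 2 * ρ * Fintype.card (Fin m) := by
  have : Nonempty (Fin (2 * m)) := ⟨⟨0, by omega⟩⟩
  refine (sum_pa (fun z => ptop ρ G k z) (fun z => ptop_nonneg _ _ _ _) a).trans
    ((sum_ptop ρ hρ G k).trans (le_of_eq ?_))
  rw [Fintype.card_fin, Fintype.card_fin]; push_cast; ring

theorem count_one {N : ℕ} (hm : 0 < m) (ρ : ℝ) (hρ : 0 < ρ) (hρ1 : ρ < 1 / 2) (a : J → Fin m)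
    (G : Fin (2 ^ N) → Fin (2 ^ N) → (K → Fin (2 * m)) → ℝ)
    (h h' : (J × K → Fin m) → Fin (2 ^ N)) :
    (∑ y : J × K → Fin m, ∑ p : J × K, ptop ρ (G (h y) (h' y)) p.2 (pa (a p.1) (y p))) *
      Real.logb 2 (1 / (2 * ρ)) ≤
      (Fintype.card (J × K → Fin m) : ℝ) * (2 * N + Fintype.card J * Fintype.card K) := by
  have : Nonempty (Fin m) := ⟨⟨0, hm⟩⟩
  have : Nonempty (Fin (2 * m)) := ⟨⟨0, by omega⟩⟩
  have hD : Fintype.card (Fin (2 ^ N) × Fin (2 ^ N)) ≤ 2 ^ (2 * N) := by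
    rw [Fintype.card_prod, Fintype.card_fin, ← pow_add, two_mul]
  have hk := Pool.Agent.Helper53.RV.count (P := J × K) (M := Fin m)
    (D := Fin (2 ^ N) × Fin (2 ^ N)) (2 * N) hD
    (fun d p v => ptop ρ (G d.1 d.2) p.2 (pa (a p.1) v))
    (fun d p v => ptop_nonneg _ _ _ _) (fun d p v => ptop_le_one _ _ _ _)
    (2 * ρ) (by positivity) (by linarith)
    (fun d p => sum_ptop_pa hm ρ hρ.le (G d.1 d.2) p.2 (a p.1))
    (fun y => (h y, h' y))
  have hcard : (Fintype.card (J × K → Fin m) : ℝ) =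
      (Fintype.card (Fin m) : ℝ) ^ Fintype.card (J × K) := by
    rw [Fintype.card_fun]; push_cast; rfl
  rw [hcard]
  refine hk.trans (le_of_eq ?_)
  rw [Fintype.card_prod]; push_cast; ring

omit [DecidableEq I] in
theorem count_rows (hm : 0 < m) (ρ : ℝ) (hρ : 0 < ρ) (hρ1 : ρ < 1 / 2) {b : I → ℕ}
    (g : ∀ i : I, (I × J → Fin m) → Fin (2 ^ b i) → (K → Fin (2 * m)) → ℝ)
    (h : ∀ i : I, (I × J → Fin m) → (J × K → Fin m) → Fin (2 ^ b i))
    (x x' : I × J → Fin m) (y' : J × K → Fin m) :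
    (∑ y, AA ρ (del g h x x' y y') x y) * Real.logb 2 (1 / (2 * ρ)) ≤
      (Fintype.card (J × K → Fin m) : ℝ) * (2 * (∑ i, b i : ℕ) +
        Fintype.card I * Fintype.card J * Fintype.card K) := by
  have hrow : ∀ i, (∑ y : J × K → Fin m, ∑ p : J × K,
      ptop ρ (del g h x x' y y' i) p.2 (pa (x (i, p.1)) (y p))) * Real.logb 2 (1 / (2 * ρ)) ≤
      (Fintype.card (J × K → Fin m) : ℝ) * (2 * b i + Fintype.card J * Fintype.card K) :=
    fun i => count_one hm ρ hρ hρ1 (fun j => x (i, j))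
      (fun d d' u => g i x d u - g i x' d' u - g i x (h i x y') u + g i x' (h i x' y') u)
      (fun y => h i x y) (fun y => h i x' y)
  have hsum : ∑ y, AA ρ (del g h x x' y y') x y = ∑ i, ∑ y : J × K → Fin m, ∑ p : J × K,
      ptop ρ (del g h x x' y y' i) p.2 (pa (x (i, p.1)) (y p)) := by
    unfold AA
    rw [sum_comm]
    refine sum_congr rfl fun i _ => sum_congr rfl fun y _ => ?_
    rw [Fintype.sum_prod_type]
  rw [hsum, sum_mul]
  refine (sum_le_sum fun i _ => hrow i).trans (le_of_eq ?_)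
  rw [← mul_sum, sum_add_distrib, ← mul_sum, sum_const, card_univ, nsmul_eq_mul]
  push_cast
  ring

/-- the sum over the four sides and `w` -/
def S5 (b : (I × J → Fin m) → (I × J → Fin m) → (J × K → Fin m) → (J × K → Fin m) →
    (I → K → Fin (2 * m)) → ℝ) : ℝ :=
  ∑ x, ∑ x', ∑ y, ∑ y', ∑ w, b x x' y y' w

/-- the number of all choices -/
noncomputable def St (I J K : Type) [Fintype I] [DecidableEq I] [Fintype J] [DecidableEq J]
    [Fintype K] [DecidableEq K] (m : ℕ) : ℝ :=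
  (Fintype.card (I × J → Fin m) : ℝ) ^ 2 * (Fintype.card (J × K → Fin m) : ℝ) ^ 2 *
    Fintype.card (I → K → Fin (2 * m))

theorem S5_const (c : ℝ) : S5 (fun (_ _ : I × J → Fin m) (_ _ : J × K → Fin m)
    (_ : I → K → Fin (2 * m)) => c) = St I J K m * c := by
  unfold S5 St
  simp_rw [sum_const, card_univ, nsmul_eq_mul]
  ring

theorem S5_add (b b' : (I × J → Fin m) → (I × J → Fin m) → (J × K → Fin m) → (J × K → Fin m) →
    (I → K → Fin (2 * m)) → ℝ) :
    S5 (fun x x' y y' w => b x x' y y' w + b' x x' y y' w) = S5 b + S5 b' := by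
  unfold S5
  simp_rw [sum_add_distrib]

theorem S5_mono {b b' : (I × J → Fin m) → (I × J → Fin m) → (J × K → Fin m) → (J × K → Fin m) →
    (I → K → Fin (2 * m)) → ℝ} (h : ∀ x x' y y' w, b x x' y y' w ≤ b' x x' y y' w) :
    S5 b ≤ S5 b' := by
  unfold S5
  exact sum_le_sum fun x _ => sum_le_sum fun x' _ => sum_le_sum fun y _ => sum_le_sum fun y' _ =>
    sum_le_sum fun w _ => h x x' y y' w

theorem S5_swap (b : (I × J → Fin m) → (I × J → Fin m) → (J × K → Fin m) → (J × K → Fin m) →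
    (I → K → Fin (2 * m)) → ℝ) :
    S5 (fun x x' y y' w => b x' x y y' w) = S5 b := by
  unfold S5
  rw [sum_comm]

theorem S5_sum {α : Type} (s : Finset α) (b : α → (I × J → Fin m) → (I × J → Fin m) →
    (J × K → Fin m) → (J × K → Fin m) → (I → K → Fin (2 * m)) → ℝ) :
    S5 (fun x x' y y' w => ∑ a ∈ s, b a x x' y y' w) = ∑ a ∈ s, S5 (b a) := by
  classical
  induction s using Finset.induction_on with
  | empty => simp [S5]
  | insert a s ha ih =>
    simp_rw [sum_insert ha]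
    rw [S5_add, ih]

theorem sum_AA (hm : 0 < m) (ρ : ℝ) (hρ : 0 < ρ) (hρ1 : ρ < 1 / 2) {b : I → ℕ}
    (g : ∀ i : I, (I × J → Fin m) → Fin (2 ^ b i) → (K → Fin (2 * m)) → ℝ)
    (h : ∀ i : I, (I × J → Fin m) → (J × K → Fin m) → Fin (2 ^ b i)) :
    ∑ x, ∑ x', ∑ y, ∑ y', AA ρ (del g h x x' y y') x y ≤
      (Fintype.card (I × J → Fin m) : ℝ) ^ 2 * (Fintype.card (J × K → Fin m) : ℝ) ^ 2 *
        ((2 * (∑ i, b i : ℕ) + Fintype.card I * Fintype.card J * Fintype.card K) /
          Real.logb 2 (1 / (2 * ρ))) := by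
  have hL : 0 < Real.logb 2 (1 / (2 * ρ)) := by
    apply Real.logb_pos (by norm_num)
    rw [lt_div_iff₀ (by positivity)]; linarith
  have h1 : ∀ x x', ∑ y, ∑ y', AA ρ (del g h x x' y y') x y ≤
      (Fintype.card (J × K → Fin m) : ℝ) ^ 2 *
        ((2 * (∑ i, b i : ℕ) + Fintype.card I * Fintype.card J * Fintype.card K) /
          Real.logb 2 (1 / (2 * ρ))) := by
    intro x x'
    rw [sum_comm]
    have h2 : ∀ y', ∑ y, AA ρ (del g h x x' y y') x y ≤ (Fintype.card (J × K → Fin m) : ℝ) *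
        ((2 * (∑ i, b i : ℕ) + Fintype.card I * Fintype.card J * Fintype.card K) /
          Real.logb 2 (1 / (2 * ρ))) := by
      intro y'
      rw [← mul_div_assoc, le_div_iff₀ hL]
      exact count_rows hm ρ hρ hρ1 g h x x' y'
    refine (sum_le_sum fun y' _ => h2 y').trans (le_of_eq ?_)
    rw [sum_const, card_univ, nsmul_eq_mul]; ring
  refine (sum_le_sum fun x _ => sum_le_sum fun x' _ => h1 x x').trans (le_of_eq ?_)
  simp_rw [sum_const, card_univ, nsmul_eq_mul]
  ring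

/-- the value of one step -/
noncomputable def QQ (I J K : Type) [Fintype I] [Fintype J] [Fintype K] (ρ : ℝ) (B : ℕ) : ℝ :=
  (2 * (B : ℝ) + Fintype.card I * Fintype.card J * Fintype.card K) /
    Real.logb 2 (1 / (2 * ρ)) + Fintype.card J * (Fintype.card K * √(Fintype.card I) / (2 * ρ))

/-- the two kinds of steps -/
theorem two_steps (hm : 0 < m) (ρ : ℝ) (hρ : 0 < ρ) (hρ1 : ρ < 1 / 2) (B : ℕ)
    (V : (I × J → Fin m) → (J × K → Fin m) → (I → K → Fin (2 * m)) → ℝ) (hV : NForm m B V) :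
    S5 (fun x x' y y' w => ∑ i, ∑ j, ∑ k, jump (dd V x x' y y') w
        (pl w i k (pa (x (i, j)) (y (j, k))))) ≤ St I J K m * QQ I J K ρ B ∧
    ∀ i₁ j₁ k₁, S5 (fun x x' y y' w => ∑ i, ∑ j, ∑ k, ind (i ≠ i₁) * jump (dd V x x' y y')
        (pl w i₁ k₁ (pa (x (i₁, j₁)) (y (j₁, k₁)))) (plant2 x x' y y' w i₁ j₁ k₁ i j k)) ≤
        St I J K m * QQ I J K ρ B := by
  have : Nonempty (Fin (2 * m)) := ⟨⟨0, by omega⟩⟩
  obtain ⟨E₁, E₂, E₃, b, g, h, hb, hV⟩ := hV
  have hL : 0 < Real.logb 2 (1 / (2 * ρ)) := by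
    apply Real.logb_pos (by norm_num)
    rw [lt_div_iff₀ (by positivity)]; linarith
  have hdd : ∀ x x' y y', dd V x x' y y' =
      sm (E₁ x y - E₁ x' y - E₁ x y' + E₁ x' y') (del g h x x' y y') := by
    intro x x' y y'
    funext w
    unfold dd sm del
    rw [hV, hV, hV, hV]
    simp_rw [sum_add_distrib, sum_sub_distrib]
    ring
  have hQ : (Fintype.card (I × J → Fin m) : ℝ) ^ 2 * (Fintype.card (J × K → Fin m) : ℝ) ^ 2 *
      Fintype.card (I → K → Fin (2 * m)) *
        ((2 * (∑ i, b i : ℕ) + Fintype.card I * Fintype.card J * Fintype.card K) /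
          Real.logb 2 (1 / (2 * ρ)) +
          Fintype.card J * (Fintype.card K * √(Fintype.card I) / (2 * ρ))) ≤
      St I J K m * QQ I J K ρ B := by
    unfold St QQ
    refine mul_le_mul_of_nonneg_left (add_le_add (div_le_div_of_nonneg_right ?_ hL.le) le_rfl)
      (by positivity)
    have : ((∑ i, b i : ℕ) : ℝ) ≤ B := by exact_mod_cast hb
    linarith
  have hC : ∀ c : ℝ, ∑ _x : I × J → Fin m, ∑ _x' : I × J → Fin m, ∑ _y : J × K → Fin m,
      ∑ _y' : J × K → Fin m, c =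
      (Fintype.card (I × J → Fin m) : ℝ) ^ 2 * (Fintype.card (J × K → Fin m) : ℝ) ^ 2 * c := by
    intro c
    simp_rw [sum_const, card_univ, nsmul_eq_mul]; ring
  constructor
  · have h1 : ∀ x x' y y', ∑ w, ∑ i, ∑ j, ∑ k, jump (dd V x x' y y') w
        (pl w i k (pa (x (i, j)) (y (j, k)))) ≤ (Fintype.card (I → K → Fin (2 * m)) : ℝ) *
        (AA ρ (del g h x x' y y') x y +
          Fintype.card J * (Fintype.card K * √(Fintype.card I) / (2 * ρ))) := by
      intro x x' y y'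
      rw [hdd]
      have h2 : ∑ w, ∑ i, ∑ j, ∑ k, jump (sm (E₁ x y - E₁ x' y - E₁ x y' + E₁ x' y')
          (del g h x x' y y')) w (pl w i k (pa (x (i, j)) (y (j, k)))) =
          ∑ j, ∑ i, ∑ k, ∑ w, jump (sm (E₁ x y - E₁ x' y - E₁ x y' + E₁ x' y')
          (del g h x x' y y')) w (pl w i k (pa (x (i, j)) (y (j, k)))) := by
        rw [sum_comm]
        conv_rhs => rw [sum_comm]
        refine sum_congr rfl fun i _ => ?_
        rw [sum_comm]
        refine sum_congr rfl fun j _ => ?_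
        rw [sum_comm]
      rw [h2]
      refine (sum_le_sum fun j _ => step ρ hρ _ (del g h x x' y y')
        (fun i k => pa (x (i, j)) (y (j, k)))).trans (le_of_eq ?_)
      rw [← mul_sum, sum_add_distrib, sum_const, card_univ, nsmul_eq_mul]
      congr 2
      unfold AA
      rw [sum_comm]
    unfold S5
    refine (sum_le_sum fun x _ => sum_le_sum fun x' _ => sum_le_sum fun y _ =>
      sum_le_sum fun y' _ => h1 x x' y y').trans ?_
    simp_rw [mul_add, sum_add_distrib]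
    rw [hC]
    have h3 := sum_AA hm ρ hρ hρ1 g h
    have h4 := mul_le_mul_of_nonneg_left h3
      (Nat.cast_nonneg (α := ℝ) (Fintype.card (I → K → Fin (2 * m))))
    simp_rw [mul_sum] at h4
    refine le_trans ?_ hQ
    linarith
  · intro i₁ j₁ k₁
    have h1 : ∀ x x' y y', ∑ w, ∑ i, ∑ j, ∑ k, ind (i ≠ i₁) * jump (dd V x x' y y')
        (pl w i₁ k₁ (pa (x (i₁, j₁)) (y (j₁, k₁)))) (plant2 x x' y y' w i₁ j₁ k₁ i j k) ≤
        (Fintype.card (I → K → Fin (2 * m)) : ℝ) *
        (AA ρ (del g h x' x y' y) x' y' +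
          Fintype.card J * (Fintype.card K * √(Fintype.card I) / (2 * ρ))) := by
      intro x x' y y'
      rw [hdd, del_swap g h x x' y y']
      have h2 : ∑ w, ∑ i, ∑ j, ∑ k, ind (i ≠ i₁) * jump (sm (E₁ x y - E₁ x' y - E₁ x y' +
          E₁ x' y') (del g h x x' y y'))
        (pl w i₁ k₁ (pa (x (i₁, j₁)) (y (j₁, k₁)))) (plant2 x x' y y' w i₁ j₁ k₁ i j k) =
          ∑ j, ∑ i, ∑ k, ∑ w, ind (i ≠ i₁) * jump (sm (E₁ x y - E₁ x' y - E₁ x y' + E₁ x' y')
          (del g h x x' y y'))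
        (pl w i₁ k₁ (pa (x (i₁, j₁)) (y (j₁, k₁)))) (plant2 x x' y y' w i₁ j₁ k₁ i j k) := by
        rw [sum_comm]
        conv_rhs => rw [sum_comm]
        refine sum_congr rfl fun i _ => ?_
        rw [sum_comm]
        refine sum_congr rfl fun j _ => ?_
        rw [sum_comm]
      rw [h2]
      unfold plant2
      refine (sum_le_sum fun j _ => step_bg ρ hρ (by linarith) _ (del g h x x' y y')
        (fun i k => pa (x' (i, j)) (y' (j, k))) i₁ k₁ (pa (x (i₁, j₁)) (y (j₁, k₁)))).trans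
          (le_of_eq ?_)
      rw [← mul_sum, sum_add_distrib, sum_const, card_univ, nsmul_eq_mul]
      congr 2
      unfold AA
      rw [sum_comm]
    unfold S5
    refine (sum_le_sum fun x _ => sum_le_sum fun x' _ => sum_le_sum fun y _ =>
      sum_le_sum fun y' _ => h1 x x' y y').trans ?_
    simp_rw [mul_add, sum_add_distrib]
    rw [hC]
    have h3 := sum_AA hm ρ hρ hρ1 g h
    have h3' : ∑ x, ∑ x', ∑ y, ∑ y', AA ρ (del g h x' x y' y) x' y' =
        ∑ x, ∑ x', ∑ y, ∑ y', AA ρ (del g h x x' y y') x y := by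
      rw [sum_comm]
      refine sum_congr rfl fun x _ => sum_congr rfl fun x' _ => ?_
      rw [sum_comm]
    rw [← h3'] at h3
    have h4 := mul_le_mul_of_nonneg_left h3
      (Nat.cast_nonneg (α := ℝ) (Fintype.card (I → K → Fin (2 * m))))
    simp_rw [mul_sum] at h4
    refine le_trans ?_ hQ
    linarith

end Pool.Agent.Helper5.RV
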