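import Mathlib
import Pool.Agent.Helper5.RV.Core

/-!
# The path

Two planted instances and two others: on the way from `w` with the plants of `x, y` and `x', y'` to
`w` with the plants of `x', y` and `x, y'` the alternating sum changes its sign.
-/

set_option autoImplicit false

namespace Pool.Agent.Helper5.RV

open Finset

variable {I J K : Type} [Fintype I] [DecidableEq I] [Fintype J] [DecidableEq J] [Fintype K]
  [DecidableEq K] {m : ℕ}

omit [Fintype I] [DecidableEq I] [Fintype J] [DecidableEq J] [Fintype K] [DecidableEq K] in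
theorem dd_swap (V : (I × J → Fin m) → (J × K → Fin m) → (I → K → Fin (2 * m)) → ℝ)
    (x x' : I × J → Fin m) (y y' : J × K → Fin m) (w : I → K → Fin (2 * m)) :
    dd V x' x y y' w = -dd V x x' y y' w := by
  unfold dd; ring

/-- the terms of one half of the path -/
noncomputable def half (V : (I × J → Fin m) → (J × K → Fin m) → (I → K → Fin (2 * m)) → ℝ)
    (i₁ : I) (j₁ : J) (k₁ : K) (i₂ : I) (j₂ : J) (k₂ : K)
    (x x' : I × J → Fin m) (y y' : J × K → Fin m) (w : I → K → Fin (2 * m)) : ℝ :=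
  ind (¬ 0 < dd V x x' y y' (plant2 x x' y y' w i₁ j₁ k₁ i₂ j₂ k₂)) +
  jump (dd V x x' y y') (pl w i₁ k₁ (pa (x (i₁, j₁)) (y (j₁, k₁))))
    (plant2 x x' y y' w i₁ j₁ k₁ i₂ j₂ k₂) +
  jump (dd V x x' y y') w (pl w i₁ k₁ (pa (x (i₁, j₁)) (y (j₁, k₁))))

omit [Fintype I] [Fintype J] [DecidableEq J] [Fintype K] in
theorem half_nonneg (V : (I × J → Fin m) → (J × K → Fin m) → (I → K → Fin (2 * m)) → ℝ)
    (i₁ : I) (j₁ : J) (k₁ : K) (i₂ : I) (j₂ : J) (k₂ : K)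
    (x x' : I × J → Fin m) (y y' : J × K → Fin m) (w : I → K → Fin (2 * m)) :
    0 ≤ half V i₁ j₁ k₁ i₂ j₂ k₂ x x' y y' w := by
  unfold half jump
  have h1 := ind_nonneg (¬ 0 < dd V x x' y y' (plant2 x x' y y' w i₁ j₁ k₁ i₂ j₂ k₂))
  have h2 := ind_nonneg (dd V x x' y y' (pl w i₁ k₁ (pa (x (i₁, j₁)) (y (j₁, k₁)))) ≤ 0 ∧
    0 < dd V x x' y y' (plant2 x x' y y' w i₁ j₁ k₁ i₂ j₂ k₂))
  have h3 := ind_nonneg (dd V x x' y y' w ≤ 0 ∧
    0 < dd V x x' y y' (pl w i₁ k₁ (pa (x (i₁, j₁)) (y (j₁, k₁)))))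
  linarith

omit [Fintype I] [Fintype J] [DecidableEq J] [Fintype K] in
theorem one_le_half (V : (I × J → Fin m) → (J × K → Fin m) → (I → K → Fin (2 * m)) → ℝ)
    (i₁ : I) (j₁ : J) (k₁ : K) (i₂ : I) (j₂ : J) (k₂ : K)
    (x x' : I × J → Fin m) (y y' : J × K → Fin m) (w : I → K → Fin (2 * m))
    (h : dd V x x' y y' w ≤ 0) : 1 ≤ half V i₁ j₁ k₁ i₂ j₂ k₂ x x' y y' w := by
  unfold half jump
  have h1 := ind_nonneg (¬ 0 < dd V x x' y y' (plant2 x x' y y' w i₁ j₁ k₁ i₂ j₂ k₂))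
  have h2 := ind_nonneg (dd V x x' y y' (pl w i₁ k₁ (pa (x (i₁, j₁)) (y (j₁, k₁)))) ≤ 0 ∧
    0 < dd V x x' y y' (plant2 x x' y y' w i₁ j₁ k₁ i₂ j₂ k₂))
  have h3 := ind_nonneg (dd V x x' y y' w ≤ 0 ∧
    0 < dd V x x' y y' (pl w i₁ k₁ (pa (x (i₁, j₁)) (y (j₁, k₁)))))
  by_cases hQ : 0 < dd V x x' y y' (pl w i₁ k₁ (pa (x (i₁, j₁)) (y (j₁, k₁))))
  · rw [ind_of (p := dd V x x' y y' w ≤ 0 ∧ _) ⟨h, hQ⟩]
    linarith
  · by_cases hP : 0 < dd V x x' y y' (plant2 x x' y y' w i₁ j₁ k₁ i₂ j₂ k₂)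
    · rw [ind_of (p := dd V x x' y y' (pl w i₁ k₁ (pa (x (i₁, j₁)) (y (j₁, k₁)))) ≤ 0 ∧ _)
        ⟨not_lt.1 hQ, hP⟩]
      linarith
    · rw [ind_of (p := ¬ _) hP]
      linarith

/-- the path -/
theorem path (V : (I × J → Fin m) → (J × K → Fin m) → (I → K → Fin (2 * m)) → ℝ)
    (i₁ : I) (j₁ : J) (k₁ : K) (i₂ : I) (j₂ : J) (k₂ : K) :
    St I J K m ≤ 2 * S5 (half V i₁ j₁ k₁ i₂ j₂ k₂) := by
  have h1 : S5 (fun (_ _ : I × J → Fin m) (_ _ : J × K → Fin m)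
      (_ : I → K → Fin (2 * m)) => (1 : ℝ)) ≤
      S5 (fun x x' y y' w => half V i₁ j₁ k₁ i₂ j₂ k₂ x x' y y' w +
        half V i₁ j₁ k₁ i₂ j₂ k₂ x' x y y' w) := by
    refine S5_mono fun x x' y y' w => ?_
    have h2 := half_nonneg V i₁ j₁ k₁ i₂ j₂ k₂ x x' y y' w
    have h3 := half_nonneg V i₁ j₁ k₁ i₂ j₂ k₂ x' x y y' w
    rcases le_or_gt (dd V x x' y y' w) 0 with h | h
    · have := one_le_half V i₁ j₁ k₁ i₂ j₂ k₂ x x' y y' w h
      linarith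
    · have := one_le_half V i₁ j₁ k₁ i₂ j₂ k₂ x' x y y' w (by rw [dd_swap]; linarith)
      linarith
  rw [S5_const, mul_one, S5_add, S5_swap (half V i₁ j₁ k₁ i₂ j₂ k₂)] at h1
  linarith

omit [Fintype I] [Fintype J] [DecidableEq J] [Fintype K] in
theorem plant2_yes₁ (x x' : I × J → Fin m) (y y' : J × K → Fin m) (w : I → K → Fin (2 * m))
    (i₁ : I) (j₁ : J) (k₁ : K) (i₂ : I) (j₂ : J) (k₂ : K) (hi : i₂ ≠ i₁) :
    YesC x y (plant2 x x' y y' w i₁ j₁ k₁ i₂ j₂ k₂) := by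
  refine ⟨i₁, j₁, k₁, ?_⟩
  unfold plant2 pl
  rw [Function.update_of_ne hi.symm, Function.update_self, Function.update_self]

omit [Fintype I] [Fintype J] [DecidableEq J] [Fintype K] in
theorem plant2_yes₂ (x x' : I × J → Fin m) (y y' : J × K → Fin m) (w : I → K → Fin (2 * m))
    (i₁ : I) (j₁ : J) (k₁ : K) (i₂ : I) (j₂ : J) (k₂ : K) :
    YesC x' y' (plant2 x x' y y' w i₁ j₁ k₁ i₂ j₂ k₂) := by
  refine ⟨i₂, j₂, k₂, ?_⟩
  unfold plant2 pl
  rw [Function.update_self, Function.update_self]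

/-- the vote is wrong -/
noncomputable def wr (V : (I × J → Fin m) → (J × K → Fin m) → (I → K → Fin (2 * m)) → ℝ)
    (x : I × J → Fin m) (y : J × K → Fin m) (w : I → K → Fin (2 * m)) : ℝ :=
  ind (¬ (0 < V x y w ↔ YesC x y w))

omit [Fintype I] [Fintype J] [DecidableEq J] [Fintype K] in
/-- the error of the alternating sum -/
theorem err_le (V : (I × J → Fin m) → (J × K → Fin m) → (I → K → Fin (2 * m)) → ℝ)
    (i₁ : I) (j₁ : J) (k₁ : K) (i₂ : I) (j₂ : J) (k₂ : K) (hi : i₂ ≠ i₁)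
    (x x' : I × J → Fin m) (y y' : J × K → Fin m) (w : I → K → Fin (2 * m)) :
    ind (¬ 0 < dd V x x' y y' (plant2 x x' y y' w i₁ j₁ k₁ i₂ j₂ k₂)) ≤
      wr V x y (plant2 x x' y y' w i₁ j₁ k₁ i₂ j₂ k₂) +
      wr V x' y (plant2 x x' y y' w i₁ j₁ k₁ i₂ j₂ k₂) +
      wr V x y' (plant2 x x' y y' w i₁ j₁ k₁ i₂ j₂ k₂) +
      wr V x' y' (plant2 x x' y y' w i₁ j₁ k₁ i₂ j₂ k₂) +
      ind (YesC x' y (plant2 x x' y y' w i₁ j₁ k₁ i₂ j₂ k₂)) +
      ind (YesC x y' (plant2 x x' y y' w i₁ j₁ k₁ i₂ j₂ k₂)) := by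
  obtain ⟨P, hP⟩ : ∃ P, P = plant2 x x' y y' w i₁ j₁ k₁ i₂ j₂ k₂ := ⟨_, rfl⟩
  have y1 : YesC x y P := hP ▸ plant2_yes₁ x x' y y' w i₁ j₁ k₁ i₂ j₂ k₂ hi
  have y2 : YesC x' y' P := hP ▸ plant2_yes₂ x x' y y' w i₁ j₁ k₁ i₂ j₂ k₂
  rw [← hP]
  have n1 : 0 ≤ wr V x y P := ind_nonneg _
  have n2 : 0 ≤ wr V x' y P := ind_nonneg _
  have n3 : 0 ≤ wr V x y' P := ind_nonneg _
  have n4 : 0 ≤ wr V x' y' P := ind_nonneg _
  have n5 : 0 ≤ ind (YesC x' y P) := ind_nonneg _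
  have n6 : 0 ≤ ind (YesC x y' P) := ind_nonneg _
  have n7 := ind_le_one (¬ 0 < dd V x x' y y' P)
  by_cases c1 : 0 < V x y P ↔ YesC x y P
  swap
  · have : wr V x y P = 1 := ind_of c1
    linarith
  by_cases c2 : 0 < V x' y P ↔ YesC x' y P
  swap
  · have : wr V x' y P = 1 := ind_of c2
    linarith
  by_cases c3 : 0 < V x y' P ↔ YesC x y' P
  swap
  · have : wr V x y' P = 1 := ind_of c3
    linarith
  by_cases c4 : 0 < V x' y' P ↔ YesC x' y' P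
  swap
  · have : wr V x' y' P = 1 := ind_of c4
    linarith
  by_cases c5 : YesC x' y P
  · have : ind (YesC x' y P) = 1 := ind_of c5
    linarith
  by_cases c6 : YesC x y' P
  · have : ind (YesC x y' P) = 1 := ind_of c6
    linarith
  have e1 : 0 < V x y P := c1.2 y1
  have e2 : 0 < V x' y' P := c4.2 y2
  have e3 : ¬ 0 < V x' y P := fun h => c5 (c2.1 h)
  have e4 : ¬ 0 < V x y' P := fun h => c6 (c3.1 h)
  have e5 : 0 < dd V x x' y y' P := by unfold dd; linarith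
  rw [ind_of_not (p := ¬ 0 < dd V x x' y y' P) (fun h => h e5)]
  linarith

/-- the crossed instances are yes instances by chance -/
noncomputable def bad₁ (i₁ : I) (j₁ : J) (k₁ : K) (i₂ : I) (j₂ : J) (k₂ : K)
    (x x' : I × J → Fin m) (y y' : J × K → Fin m) (w : I → K → Fin (2 * m)) : ℝ :=
  ind (YesC x' y (plant2 x x' y y' w i₁ j₁ k₁ i₂ j₂ k₂))

/-- the crossed instances are yes instances by chance -/
noncomputable def bad₂ (i₁ : I) (j₁ : J) (k₁ : K) (i₂ : I) (j₂ : J) (k₂ : K)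
    (x x' : I × J → Fin m) (y y' : J × K → Fin m) (w : I → K → Fin (2 * m)) : ℝ :=
  ind (YesC x y' (plant2 x x' y y' w i₁ j₁ k₁ i₂ j₂ k₂))

/-- the alternating sum is not positive at the doubly planted instance -/
noncomputable def eT (V : (I × J → Fin m) → (J × K → Fin m) → (I → K → Fin (2 * m)) → ℝ)
    (i₁ : I) (j₁ : J) (k₁ : K) (i₂ : I) (j₂ : J) (k₂ : K)
    (x x' : I × J → Fin m) (y y' : J × K → Fin m) (w : I → K → Fin (2 * m)) : ℝ :=
  ind (¬ 0 < dd V x x' y y' (plant2 x x' y y' w i₁ j₁ k₁ i₂ j₂ k₂))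

/-- the average over the circuits -/
theorem avg_err {Ω : Type} [Fintype Ω]
    (V : Ω → (I × J → Fin m) → (J × K → Fin m) → (I → K → Fin (2 * m)) → ℝ)
    (hc : ∀ x y w, ∑ ω, wr (V ω) x y w ≤ (Fintype.card Ω : ℝ) / 20) (β : ℝ)
    (i₁ : I) (j₁ : J) (k₁ : K) (i₂ : I) (j₂ : J) (k₂ : K) (hi : i₂ ≠ i₁)
    (h1 : S5 (m := m) (bad₁ i₁ j₁ k₁ i₂ j₂ k₂) ≤ β * St I J K m)
    (h2 : S5 (m := m) (bad₂ i₁ j₁ k₁ i₂ j₂ k₂) ≤ β * St I J K m) :
    ∑ ω, S5 (eT (V ω) i₁ j₁ k₁ i₂ j₂ k₂) ≤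
      (Fintype.card Ω : ℝ) * St I J K m * (1 / 5 + 2 * β) := by
  rw [← S5_sum]
  have h3 : S5 (fun x x' y y' w => ∑ ω, eT (V ω) i₁ j₁ k₁ i₂ j₂ k₂ x x' y y' w) ≤
      S5 (m := m) (fun x x' y y' w => (Fintype.card Ω : ℝ) / 5 + ((Fintype.card Ω : ℝ) *
        bad₁ i₁ j₁ k₁ i₂ j₂ k₂ x x' y y' w + (Fintype.card Ω : ℝ) *
        bad₂ i₁ j₁ k₁ i₂ j₂ k₂ x x' y y' w)) := by
    refine S5_mono fun x x' y y' w => ?_
    refine (sum_le_sum fun ω _ => err_le (V ω) i₁ j₁ k₁ i₂ j₂ k₂ hi x x' y y' w).trans ?_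
    simp_rw [sum_add_distrib]
    rw [sum_const, sum_const, card_univ, nsmul_eq_mul, nsmul_eq_mul]
    have a1 := hc x y (plant2 x x' y y' w i₁ j₁ k₁ i₂ j₂ k₂)
    have a2 := hc x' y (plant2 x x' y y' w i₁ j₁ k₁ i₂ j₂ k₂)
    have a3 := hc x y' (plant2 x x' y y' w i₁ j₁ k₁ i₂ j₂ k₂)
    have a4 := hc x' y' (plant2 x x' y y' w i₁ j₁ k₁ i₂ j₂ k₂)
    unfold bad₁ bad₂
    linarith
  refine h3.trans ?_
  rw [S5_add, S5_const, S5_add]
  have h4 : ∀ b : (I × J → Fin m) → (I × J → Fin m) → (J × K → Fin m) → (J × K → Fin m) →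
      (I → K → Fin (2 * m)) → ℝ, S5 (fun x x' y y' w => (Fintype.card Ω : ℝ) * b x x' y y' w) =
      (Fintype.card Ω : ℝ) * S5 b := by
    intro b
    unfold S5
    simp_rw [mul_sum]
  rw [h4, h4]
  have hΩ : (0 : ℝ) ≤ Fintype.card Ω := Nat.cast_nonneg _
  have b1 := mul_le_mul_of_nonneg_left h1 hΩ
  have b2 := mul_le_mul_of_nonneg_left h2 hΩ
  linarith

/-- the first kind of steps -/
noncomputable def j1 (V : (I × J → Fin m) → (J × K → Fin m) → (I → K → Fin (2 * m)) → ℝ)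
    (p q : I × J × K)
    (x x' : I × J → Fin m) (y y' : J × K → Fin m) (w : I → K → Fin (2 * m)) : ℝ :=
  ind (q.1 ≠ p.1) * jump (dd V x x' y y')
    (pl w p.1 p.2.2 (pa (x (p.1, p.2.1)) (y (p.2.1, p.2.2))))
    (plant2 x x' y y' w p.1 p.2.1 p.2.2 q.1 q.2.1 q.2.2)

/-- the second kind of steps -/
noncomputable def j2 (V : (I × J → Fin m) → (J × K → Fin m) → (I → K → Fin (2 * m)) → ℝ)
    (p : I × J × K)
    (x x' : I × J → Fin m) (y y' : J × K → Fin m) (w : I → K → Fin (2 * m)) : ℝ :=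
  jump (dd V x x' y y') w (pl w p.1 p.2.2 (pa (x (p.1, p.2.1)) (y (p.2.1, p.2.2))))

theorem S5_nonneg (b : (I × J → Fin m) → (I × J → Fin m) → (J × K → Fin m) → (J × K → Fin m) →
    (I → K → Fin (2 * m)) → ℝ) (hb : ∀ x x' y y' w, 0 ≤ b x x' y y' w) : 0 ≤ S5 b := by
  unfold S5
  exact sum_nonneg fun x _ => sum_nonneg fun x' _ => sum_nonneg fun y _ =>
    sum_nonneg fun y' _ => sum_nonneg fun w _ => hb x x' y y' w

theorem one_pair (V : (I × J → Fin m) → (J × K → Fin m) → (I → K → Fin (2 * m)) → ℝ)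
    (p q : I × J × K) :
    ind (q.1 ≠ p.1) * St I J K m ≤ 2 * (ind (q.1 ≠ p.1) *
      S5 (eT V p.1 p.2.1 p.2.2 q.1 q.2.1 q.2.2) + S5 (j1 V p q) + S5 (j2 V p)) := by
  by_cases hi : q.1 ≠ p.1
  · have := path V p.1 p.2.1 p.2.2 q.1 q.2.1 q.2.2
    rw [ind_of hi, one_mul, one_mul]
    refine this.trans (le_of_eq ?_)
    rw [← S5_add, ← S5_add]
    unfold half eT j1 j2
    simp only [ind_of hi, one_mul]
  · rw [ind_of_not hi, zero_mul, zero_mul]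
    have e1 : 0 ≤ S5 (j1 V p q) := S5_nonneg _ fun x x' y y' w => by
      unfold j1; rw [ind_of_not hi, zero_mul]
    have e2 : 0 ≤ S5 (j2 V p) := S5_nonneg _ fun x x' y y' w => ind_nonneg _
    linarith

omit [DecidableEq J] [DecidableEq K] in
theorem sum_pairs [Nonempty I] [Nonempty J] [Nonempty K] :
    ∑ p : I × J × K, ∑ q : I × J × K, ind (q.1 ≠ p.1) =
      (Fintype.card I : ℝ) * (Fintype.card I - 1) * ((Fintype.card J : ℝ) * Fintype.card K) ^ 2 := by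
  have h1 : ∀ i : I, ∑ i' : I, ind (i' ≠ i) = (Fintype.card I : ℝ) - 1 := by
    intro i
    rw [← add_sum_erase univ _ (mem_univ i), ind_of_not (fun h => h rfl), zero_add,
      sum_congr rfl fun i' hi' => ind_of (ne_of_mem_erase hi'), sum_const,
      card_erase_of_mem (mem_univ i), card_univ, nsmul_eq_mul, mul_one,
      Nat.cast_sub (Fintype.card_pos), Nat.cast_one]
  simp_rw [Fintype.sum_prod_type, sum_const, card_univ, nsmul_eq_mul, ← mul_sum]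
  rw [sum_congr rfl fun i _ => h1 i, sum_const, card_univ, nsmul_eq_mul]
  ring

theorem one_circuit [Nonempty I] [Nonempty J] [Nonempty K] (hm : 0 < m) (ρ : ℝ) (hρ : 0 < ρ)
    (hρ1 : ρ < 1 / 2) (B : ℕ)
    (V : (I × J → Fin m) → (J × K → Fin m) → (I → K → Fin (2 * m)) → ℝ) (hV : NForm m B V) :
    (Fintype.card I : ℝ) * (Fintype.card I - 1) * ((Fintype.card J : ℝ) * Fintype.card K) ^ 2 *
      St I J K m ≤ 2 * (∑ p : I × J × K, ∑ q : I × J × K, ind (q.1 ≠ p.1) *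
      S5 (eT V p.1 p.2.1 p.2.2 q.1 q.2.1 q.2.2)) +
      4 * (Fintype.card I * (Fintype.card J * Fintype.card K)) * (St I J K m * QQ I J K ρ B) := by
  obtain ⟨t1, t2⟩ := two_steps hm ρ hρ hρ1 B V hV
  rw [← sum_pairs, sum_mul]
  simp_rw [sum_mul]
  refine (sum_le_sum fun p _ => sum_le_sum fun q _ => one_pair V p q).trans ?_
  have e1 : ∑ p : I × J × K, ∑ q : I × J × K, S5 (j1 V p q) ≤
      Fintype.card I * (Fintype.card J * Fintype.card K) * (St I J K m * QQ I J K ρ B) := by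
    have : ∀ p : I × J × K, ∑ q : I × J × K, S5 (j1 V p q) ≤ St I J K m * QQ I J K ρ B := by
      intro p
      rw [← S5_sum]
      refine le_trans (le_of_eq ?_) (t2 p.1 p.2.1 p.2.2)
      congr 1
      funext x x' y y' w
      rw [Fintype.sum_prod_type]
      refine sum_congr rfl fun i _ => ?_
      rw [Fintype.sum_prod_type]
      rfl
    refine (sum_le_sum fun p _ => this p).trans (le_of_eq ?_)
    rw [sum_const, card_univ, nsmul_eq_mul, Fintype.card_prod, Fintype.card_prod]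
    push_cast; ring
  have e2 : ∑ p : I × J × K, ∑ _q : I × J × K, S5 (j2 V p) ≤
      Fintype.card I * (Fintype.card J * Fintype.card K) * (St I J K m * QQ I J K ρ B) := by
    rw [sum_comm]
    have : ∑ p : I × J × K, S5 (j2 V p) ≤ St I J K m * QQ I J K ρ B := by
      rw [← S5_sum]
      refine le_trans (le_of_eq ?_) t1
      congr 1
      funext x x' y y' w
      rw [Fintype.sum_prod_type]
      refine sum_congr rfl fun i _ => ?_
      rw [Fintype.sum_prod_type]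
      rfl
    refine (sum_le_sum fun p _ => this).trans (le_of_eq ?_)
    rw [sum_const, card_univ, nsmul_eq_mul, Fintype.card_prod, Fintype.card_prod]
    push_cast; ring
  simp_rw [← mul_sum, sum_add_distrib]
  linarith

/-- **the core inequality** -/
theorem core {Ω : Type} [Fintype Ω] [Nonempty Ω] [Nonempty I] [Nonempty J] [Nonempty K]
    (hm : 0 < m) (V : Ω → (I × J → Fin m) → (J × K → Fin m) → (I → K → Fin (2 * m)) → ℝ)
    (B : Ω → ℕ) (hV : ∀ ω, NForm m (B ω) (V ω))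
    (hc : ∀ x y w, ∑ ω, wr (V ω) x y w ≤ (Fintype.card Ω : ℝ) / 20) (β : ℝ) (hβ : 0 ≤ β)
    (h1 : ∀ (i₁ : I) (j₁ : J) (k₁ : K) (i₂ : I) (j₂ : J) (k₂ : K), i₂ ≠ i₁ →
      S5 (m := m) (bad₁ i₁ j₁ k₁ i₂ j₂ k₂) ≤ β * St I J K m)
    (h2 : ∀ (i₁ : I) (j₁ : J) (k₁ : K) (i₂ : I) (j₂ : J) (k₂ : K), i₂ ≠ i₁ →
      S5 (m := m) (bad₂ i₁ j₁ k₁ i₂ j₂ k₂) ≤ β * St I J K m)
    (ρ : ℝ) (hρ : 0 < ρ) (hρ1 : ρ < 1 / 2) :
    (1 - 1 / (Fintype.card I : ℝ)) / 2 ≤ 1 / 5 + 2 * β +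
      2 * ((2 * ((∑ ω, (B ω : ℝ)) / Fintype.card Ω) + Fintype.card I * Fintype.card J *
        Fintype.card K) / (Fintype.card I * Fintype.card J * Fintype.card K *
          Real.logb 2 (1 / (2 * ρ))) + 1 / (2 * ρ * √(Fintype.card I))) := by
  have : Nonempty (Fin m) := ⟨⟨0, hm⟩⟩
  have : Nonempty (Fin (2 * m)) := ⟨⟨0, by omega⟩⟩
  have hL : 0 < Real.logb 2 (1 / (2 * ρ)) := by
    apply Real.logb_pos (by norm_num)
    rw [lt_div_iff₀ (by positivity)]; linarith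
  have key : ∀ ω, (Fintype.card I : ℝ) * (Fintype.card I - 1) *
      ((Fintype.card J : ℝ) * Fintype.card K) ^ 2 * St I J K m ≤
      2 * (∑ p : I × J × K, ∑ q : I × J × K, ind (q.1 ≠ p.1) *
      S5 (eT (V ω) p.1 p.2.1 p.2.2 q.1 q.2.1 q.2.2)) +
      4 * (Fintype.card I * (Fintype.card J * Fintype.card K)) *
        (St I J K m * QQ I J K ρ (B ω)) :=
    fun ω => one_circuit hm ρ hρ hρ1 (B ω) (V ω) (hV ω)
  have hsum := sum_le_sum fun ω (_ : ω ∈ (univ : Finset Ω)) => key ω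
  rw [sum_const, card_univ, nsmul_eq_mul, sum_add_distrib, ← mul_sum, ← mul_sum, ← mul_sum,
    sum_comm] at hsum
  have herr : ∑ p : I × J × K, ∑ ω, ∑ q : I × J × K, ind (q.1 ≠ p.1) *
      S5 (eT (V ω) p.1 p.2.1 p.2.2 q.1 q.2.1 q.2.2) ≤
      ((Fintype.card I : ℝ) * (Fintype.card I - 1) *
        ((Fintype.card J : ℝ) * Fintype.card K) ^ 2) *
        ((Fintype.card Ω : ℝ) * St I J K m * (1 / 5 + 2 * β)) := by
    rw [← sum_pairs, sum_mul]
    refine sum_le_sum fun p _ => ?_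
    rw [sum_comm, sum_mul]
    refine sum_le_sum fun q _ => ?_
    rw [← mul_sum]
    by_cases hi : q.1 ≠ p.1
    · rw [ind_of hi, one_mul, one_mul]
      exact avg_err V hc β p.1 p.2.1 p.2.2 q.1 q.2.1 q.2.2 hi
        (h1 p.1 p.2.1 p.2.2 q.1 q.2.1 q.2.2 hi) (h2 p.1 p.2.1 p.2.2 q.1 q.2.1 q.2.2 hi)
    · rw [ind_of_not hi, zero_mul, zero_mul]
  have hQ : ∑ ω, QQ I J K ρ (B ω) = (Fintype.card Ω : ℝ) *
      ((2 * ((∑ ω, (B ω : ℝ)) / Fintype.card Ω) + Fintype.card I * Fintype.card J *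
        Fintype.card K) / Real.logb 2 (1 / (2 * ρ)) + Fintype.card J *
          (Fintype.card K * √(Fintype.card I) / (2 * ρ))) := by
    have hΩ : (Fintype.card Ω : ℝ) ≠ 0 := by exact_mod_cast Fintype.card_ne_zero
    unfold QQ
    rw [sum_add_distrib, ← sum_div, sum_add_distrib, ← mul_sum, sum_const, sum_const, card_univ,
      nsmul_eq_mul, nsmul_eq_mul]
    field_simp
  rw [hQ] at hsum
  obtain ⟨a, ha⟩ : ∃ a : ℝ, a = Fintype.card I := ⟨_, rfl⟩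
  obtain ⟨b, hb⟩ : ∃ b : ℝ, b = Fintype.card J := ⟨_, rfl⟩
  obtain ⟨c, hc'⟩ : ∃ c : ℝ, c = Fintype.card K := ⟨_, rfl⟩
  obtain ⟨O, hO⟩ : ∃ O : ℝ, O = Fintype.card Ω := ⟨_, rfl⟩
  obtain ⟨S, hS⟩ : ∃ S : ℝ, S = St I J K m := ⟨_, rfl⟩
  obtain ⟨L, hL'⟩ : ∃ L : ℝ, L = Real.logb 2 (1 / (2 * ρ)) := ⟨_, rfl⟩
  obtain ⟨Bs, hBs⟩ : ∃ Bs : ℝ, Bs = (∑ ω, (B ω : ℝ)) / Fintype.card Ω := ⟨_, rfl⟩
  have ha0 : 1 ≤ a := by rw [ha]; exact_mod_cast Fintype.card_pos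
  have hb0 : 1 ≤ b := by rw [hb]; exact_mod_cast Fintype.card_pos
  have hc0 : 1 ≤ c := by rw [hc']; exact_mod_cast Fintype.card_pos
  have hO0 : 0 < O := by rw [hO]; exact_mod_cast Fintype.card_pos
  have hS0 : 0 < S := by rw [hS]; unfold St; positivity
  rw [← hL'] at hL
  rw [← hBs, ← ha, ← hb, ← hc', ← hO, ← hS, ← hL'] at hsum
  rw [← ha, ← hb, ← hc', ← hO, ← hS] at herr
  rw [← ha, ← hb, ← hc', ← hL', ← hBs]
  set T := (2 * Bs + a * b * c) / L + b * (c * √a / (2 * ρ)) with hT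
  have hs2 : O * (a * (a - 1) * (b * c) ^ 2 * S) ≤
      2 * (a * (a - 1) * (b * c) ^ 2 * (O * S * (1 / 5 + 2 * β))) +
      4 * (a * (b * c)) * (S * (O * T)) := by
    linarith
  have hs3 : (a - 1) * (b * c) ≤ 2 * ((a - 1) * (b * c) * (1 / 5 + 2 * β)) + 4 * T := by
    have hp : 0 < O * S * (a * (b * c)) := by positivity
    refine le_of_mul_le_mul_left ?_ hp
    linarith
  have hs4 : (a - 1) * (b * c) ≤ 2 * (a * (b * c) * (1 / 5 + 2 * β)) + 4 * T := by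
    have : 0 ≤ (b * c) * (1 / 5 + 2 * β) := by positivity
    nlinarith
  have hT2 : T = (a * b * c) * ((2 * Bs + a * b * c) / (a * b * c * L) +
      1 / (2 * ρ * √a)) := by
    rw [hT]
    have hsa : √a * √a = a := Real.mul_self_sqrt (by linarith)
    have hsa0 : 0 < √a := Real.sqrt_pos.2 (by linarith)
    field_simp
    linear_combination (c * b * L) * hsa
  rw [hT2] at hs4
  have hp : 0 < a * b * c := by positivity
  have hs5 : (1 - 1 / a) / 2 * (a * b * c) = (a - 1) * (b * c) / 2 := by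
    field_simp
  refine le_of_mul_le_mul_right ?_ hp
  rw [hs5]
  linarith

end Pool.Agent.Helper5.RV
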