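import Mathlib
import Pool.Agent.Helper5.RV.Defs
import Pool.Agent.Helper8.UV.Defs

/-!
# The statements
-/

set_option autoImplicit false

namespace Pool.Agent.Helper5.RV

open Pool.Agent.Helper22.ETModel Pool.Agent.Helper8.VT Pool.Agent.Helper8.UV

/-- The vote of the clerk of the vertex `i`: an arbitrary real function of what the clerk knows and
of the rows `i` of the matrices `P s`, which are arbitrary functions of what Bob knows. -/
def matVote {n R : ℕ} (P : Fin R → Flags n → Wts n → Matrix (Fin n) (Fin n) ℤ)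
    (g : Flags n → Wts n → (Fin R → Fin n → ℤ) → ℝ) (i : Fin n) (I : Inst n) : ℝ :=
  g I.flag (clerkView i I.wt) (fun s => P s I.flag (bobView I.wt) i)

def LowerStatement : Prop :=
  ∀ (n : ℕ) (Ω ι : Type) [Fintype Ω] [Nonempty Ω] [Fintype ι]
    (H : Ω → ι → Inst n → ℝ) (κ : Ω → ι → ℝ), (∀ ω r, Price (H ω r) (κ ω r)) →
    (∀ I : Inst n, I.Valid → Tripartite I → Decides H I) →
    (n : ℝ) ^ 3 * (Real.logb 2 n - 30) ≤ 1000 * ((∑ ω, ∑ r, κ ω r) / Fintype.card Ω)

def MatrixStatement : Prop :=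
  ∀ (n R c : ℕ) (Ω ι : Type) [Fintype Ω] [Nonempty Ω] [Fintype ι] (F : Ω → ι → Inst n → ℝ)
    (P : Ω → Fin R → Flags n → Wts n → Matrix (Fin n) (Fin n) ℤ)
    (g : Ω → Fin n → Flags n → Wts n → (Fin R → Fin n → ℤ) → ℝ), (∀ ω r, IsFree (F ω r)) →
    (∀ ω s f w i k, |P ω s f w i k| ≤ (n : ℤ) ^ c) →
    (∀ I : Inst n, I.Valid → Tripartite I → Decides (fun ω => Sum.elim (F ω)
      fun i : {i : Fin n // (i : ℕ) % 3 = 0} => matVote (P ω) (g ω i) i) I) →
    (n : ℝ) * (Real.logb 2 n - 30) ≤ 1000 * (R * (c * (Nat.log 2 n + 1) + 2))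

end Pool.Agent.Helper5.RV
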