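import Mathlib
import Pool.Agent.Helper5.RV.Sys

/-!
# Sums of normal forms
-/

set_option autoImplicit false

namespace Pool.Agent.Helper5.RV

open Finset

variable {I J K : Type} [Fintype I] {m : ℕ}

/-- two messages are one message -/
def pairE (a b : ℕ) : Fin (2 ^ a) × Fin (2 ^ b) ≃ Fin (2 ^ (a + b)) :=
  finProdFinEquiv.trans (finCongr (pow_add 2 a b).symm)

theorem nform_mono {B B' : ℕ} (hB : B ≤ B')
    {V : (I × J → Fin m) → (J × K → Fin m) → (I → K → Fin (2 * m)) → ℝ} (h : NForm m B V) :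
    NForm m B' V := by
  obtain ⟨E₁, E₂, E₃, b, g, h, hb, hV⟩ := h
  exact ⟨E₁, E₂, E₃, b, g, h, hb.trans hB, hV⟩

theorem nform_zero : NForm m 0 (fun (_ : I × J → Fin m) (_ : J × K → Fin m)
    (_ : I → K → Fin (2 * m)) => (0 : ℝ)) :=
  ⟨fun _ _ => 0, fun _ _ => 0, fun _ _ => 0, fun _ => 0, fun _ _ _ _ => 0,
    fun _ _ _ => ⟨0, by norm_num⟩, by simp, fun x y w => by simp⟩

theorem nform_add {B B' : ℕ}
    {V V' : (I × J → Fin m) → (J × K → Fin m) → (I → K → Fin (2 * m)) → ℝ}
    (h : NForm m B V) (h' : NForm m B' V') : NForm m (B + B') (fun x y w => V x y w + V' x y w) := by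
  obtain ⟨E₁, E₂, E₃, b, g, h, hb, hV⟩ := h
  obtain ⟨E₁', E₂', E₃', b', g', h', hb', hV'⟩ := h'
  refine ⟨fun x y => E₁ x y + E₁' x y, fun x w => E₂ x w + E₂' x w, fun y w => E₃ y w + E₃' y w,
    fun i => b i + b' i,
    fun i x d u => g i x ((pairE (b i) (b' i)).symm d).1 u +
      g' i x ((pairE (b i) (b' i)).symm d).2 u,
    fun i x y => pairE (b i) (b' i) (h i x y, h' i x y), ?_, ?_⟩
  · rw [sum_add_distrib]; exact add_le_add hb hb'
  · intro x y w
    show V x y w + V' x y w = _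
    rw [hV, hV']
    simp only [Equiv.symm_apply_apply]
    rw [sum_add_distrib]
    ring

theorem nform_sum {ι : Type} (s : Finset ι) (B : ι → ℕ)
    (V : ι → (I × J → Fin m) → (J × K → Fin m) → (I → K → Fin (2 * m)) → ℝ)
    (h : ∀ r, NForm m (B r) (V r)) :
    NForm m (∑ r ∈ s, B r) (fun x y w => ∑ r ∈ s, V r x y w) := by
  classical
  induction s using Finset.induction_on with
  | empty => simpa using (nform_zero : NForm (I := I) (J := J) (K := K) m 0 _)
  | insert r s hr ih =>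
    simp only [sum_insert hr]
    exact nform_add (h r) ih

end Pool.Agent.Helper5.RV
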