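import Mathlib
import Pool.Agent.Helper5.RV.Stmt
import Pool.Agent.Helper5.RV.Sum
import Pool.Agent.Helper5.RV.Path
import Pool.Agent.Helper53.RV.Bad
import Pool.Agent.Helper95.RV.Inst

/-!
# The lower bound
-/

set_option autoImplicit false

namespace Pool.Agent.Helper5.RV

open Finset Pool.Agent.Helper22.ETModel Pool.Agent.Helper8.VT Pool.Agent.Helper8.UV
open Pool.Agent.Helper95.RV

/-- the number of vertices of a class -/
theorem card_cls (n p : ℕ) (hp : p < 3) :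
    n ≤ 3 * Fintype.card (Cls n p) + 2 ∧ Fintype.card (Cls n p) ≤ n := by
  constructor
  · have h : Fintype.card (Fin (n / 3)) ≤ Fintype.card (Cls n p) :=
      Fintype.card_le_of_injective
        (fun t : Fin (n / 3) => (⟨⟨3 * (t : ℕ) + p, by omega⟩, by
          show (3 * (t : ℕ) + p) % 3 = p
          omega⟩ : Cls n p))
        (fun t t' h => by
          have := congrArg (fun v : Cls n p => ((v : Fin n) : ℕ)) h
          simp only at this
          exact Fin.ext (by omega))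
    rw [Fintype.card_fin] at h
    omega
  · have := Fintype.card_subtype_le (fun v : Fin n => (v : ℕ) % 3 = p)
    rwa [Fintype.card_fin] at this

theorem price_nonneg {n : ℕ} (H : Inst n → ℝ) (κ : ℝ) (h : Price H κ) : 0 ≤ κ := by
  rcases h with ⟨rfl, _⟩ | ⟨a, b, _, rfl⟩
  · exact le_rfl
  · positivity

/-- wrong circuits -/
theorem sum_wr {n m : ℕ} {Ω ι : Type} [Fintype Ω] [Fintype ι] (H : Ω → ι → Inst n → ℝ)
    (hm : 2 * m ≤ n ^ 300)
    (hdec : ∀ I : Inst n, I.Valid → Tripartite I → Decides H I)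
    (x : Cls n 0 × Cls n 1 → Fin m) (y : Cls n 1 × Cls n 2 → Fin m)
    (w : Cls n 0 → Cls n 2 → Fin (2 * m)) :
    ∑ ω, wr (fun x y w => ∑ r, H ω r (mk x y w)) x y w ≤ (Fintype.card Ω : ℝ) / 20 := by
  classical
  have h1 := hdec (mk x y w) (mk_valid hm x y w) (mk_tripartite x y w)
  unfold Decides at h1
  have h2 : ∑ ω, wr (fun x y w => ∑ r, H ω r (mk x y w)) x y w =
      ((univ.filter fun ω : Ω => ¬ (0 < ∑ r, H ω r (mk x y w) ↔ (mk x y w).Yes)).card : ℝ) := by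
    rw [Finset.card_filter]
    push_cast
    refine sum_congr rfl fun ω _ => ?_
    unfold wr ind
    rw [mk_yes x y w]
    by_cases h : 0 < ∑ r, H ω r (mk x y w) ↔ YesC x y w
    · rw [if_neg (not_not.2 h), if_neg (not_not.2 h)]
    · rw [if_pos h, if_pos h]
  have h3 : (univ.filter fun ω : Ω => (0 < ∑ r, H ω r (mk x y w) ↔ (mk x y w).Yes)).card +
      (univ.filter fun ω : Ω => ¬ (0 < ∑ r, H ω r (mk x y w) ↔ (mk x y w).Yes)).card =
      Fintype.card Ω := by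
    rw [card_filter_add_card_filter_not, card_univ]
  rw [h2]
  have h4 : 20 * (univ.filter fun ω : Ω =>
      ¬ (0 < ∑ r, H ω r (mk x y w) ↔ (mk x y w).Yes)).card ≤ Fintype.card Ω := by
    have h5 : 19 * Fintype.card Ω ≤ 20 *
        (univ.filter fun ω : Ω => (0 < ∑ r, H ω r (mk x y w) ↔ (mk x y w).Yes)).card := by
      refine h1.trans (le_of_eq ?_)
      congr 2
    omega
  have h6 : (20 : ℝ) * ((univ.filter fun ω : Ω =>
      ¬ (0 < ∑ r, H ω r (mk x y w) ↔ (mk x y w).Yes)).card : ℝ) ≤ Fintype.card Ω := by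
    exact_mod_cast h4
  linarith

/-- the lower bound, for any finite probability space -/
theorem lower_main
    (hconv : ∀ {n m a b : ℕ}, 0 < m → 2 * m ≤ n ^ 300 → ∀ H : Inst n → ℝ, IsConv a b H →
      NForm m (b * 2 ^ a) (fun x y w => H (mk (n := n) x y w)))
    (hnum : ∀ (n a b c m : ℕ), 2 ^ 30 ≤ n → n ≤ 3 * a + 2 → n ≤ 3 * b + 2 → n ≤ 3 * c + 2 →
      a ≤ n → b ≤ n → c ≤ n → n ^ 5 ≤ m → ∀ B : ℝ, 0 ≤ B →
      (∀ ρ : ℝ, 0 < ρ → ρ < 1 / 2 → (1 - 1 / (a : ℝ)) / 2 ≤ 1 / 5 + 2 * (a * b * c / m) +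
        2 * ((2 * B + a * b * c) / (a * b * c * Real.logb 2 (1 / (2 * ρ))) +
          1 / (2 * ρ * √a))) →
      (n : ℝ) ^ 3 * (Real.logb 2 n - 30) ≤ 1000 * B) : LowerStatement := by
  intro n Ω ι _ _ _ H κ hκ hdec
  have hκ0 : 0 ≤ (∑ ω, ∑ r, κ ω r) / Fintype.card Ω :=
    div_nonneg (sum_nonneg fun ω _ => sum_nonneg fun r _ => price_nonneg _ _ (hκ ω r))
      (Nat.cast_nonneg _)
  by_cases hn : 2 ^ 30 ≤ n
  swap
  · have h1 : Real.logb 2 n ≤ 30 := by
      rcases Nat.eq_zero_or_pos n with rfl | hn0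
      · simp
      · rw [Real.logb_le_iff_le_rpow (by norm_num) (by exact_mod_cast hn0)]
        have : (n : ℝ) ≤ 2 ^ 30 := by exact_mod_cast (not_le.1 hn).le
        refine this.trans (le_of_eq ?_)
        norm_num
    have h2 : (n : ℝ) ^ 3 * (Real.logb 2 n - 30) ≤ 0 :=
      mul_nonpos_of_nonneg_of_nonpos (by positivity) (by linarith)
    linarith
  have hn1 : 2 ≤ n := le_trans (by norm_num) hn
  obtain ⟨m, hm⟩ : ∃ m, m = n ^ 299 := ⟨_, rfl⟩
  have hm0 : 0 < m := by rw [hm]; positivity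
  have hm1 : 2 * m ≤ n ^ 300 := by
    rw [hm, show (300 : ℕ) = 299 + 1 from rfl, pow_succ, mul_comm]
    exact Nat.mul_le_mul_left _ hn1
  have hm5 : n ^ 5 ≤ m := by
    rw [hm]; exact Nat.pow_le_pow_right (by omega) (by norm_num)
  obtain ⟨ca, ca'⟩ := card_cls n 0 (by norm_num)
  obtain ⟨cb, cb'⟩ := card_cls n 1 (by norm_num)
  obtain ⟨cc, cc'⟩ := card_cls n 2 (by norm_num)
  have : Nonempty (Cls n 0) := Fintype.card_pos_iff.1 (by omega)
  have : Nonempty (Cls n 1) := Fintype.card_pos_iff.1 (by omega)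
  have : Nonempty (Cls n 2) := Fintype.card_pos_iff.1 (by omega)
  have hB : ∀ ω r, ∃ B : ℕ, (B : ℝ) = κ ω r ∧
      NForm m B (fun x y w => H ω r (mk (n := n) x y w)) := by
    intro ω r
    rcases hκ ω r with ⟨h1, h2⟩ | ⟨a, b, h1, h2⟩
    · exact ⟨0, by rw [h1, Nat.cast_zero], nform_free hm0 hm1 _ h2⟩
    · exact ⟨b * 2 ^ a, by rw [h2]; push_cast; rfl, hconv hm0 hm1 _ h1⟩
  choose B hBκ hBN using hB
  refine hnum n (Fintype.card (Cls n 0)) (Fintype.card (Cls n 1)) (Fintype.card (Cls n 2)) m hn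
    ca cb cc ca' cb' cc' hm5 _ hκ0 fun ρ hρ hρ1 => ?_
  have hmR : (0 : ℝ) < m := by exact_mod_cast hm0
  have hcore := core hm0 (fun ω x y w => ∑ r, H ω r (mk (n := n) x y w))
    (fun ω => ∑ r, B ω r) (fun ω => nform_sum univ (B ω) _ (hBN ω))
    (sum_wr H hm1 hdec)
    ((Fintype.card (Cls n 0) : ℝ) * Fintype.card (Cls n 1) * Fintype.card (Cls n 2) / m)
    (by positivity)
    (fun i₁ j₁ k₁ i₂ j₂ k₂ hi => by
      have := Pool.Agent.Helper53.RV.bad_xy (m := m) i₁ i₂ hi.symm j₁ j₂ k₁ k₂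
      rw [div_mul_eq_mul_div, le_div_iff₀ hmR, mul_comm]
      exact this)
    (fun i₁ j₁ k₁ i₂ j₂ k₂ hi => by
      have := Pool.Agent.Helper53.RV.bad_yx (m := m) i₁ i₂ hi.symm j₁ j₂ k₁ k₂
      rw [div_mul_eq_mul_div, le_div_iff₀ hmR, mul_comm]
      exact this) ρ hρ hρ1
  have hBsum : (∑ ω, ((∑ r, B ω r : ℕ) : ℝ)) = ∑ ω, ∑ r, κ ω r := by
    refine sum_congr rfl fun ω _ => ?_
    push_cast
    exact sum_congr rfl fun r _ => hBκ ω r
  rw [hBsum] at hcore
  exact hcore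

end Pool.Agent.Helper5.RV
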