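import Mathlib
import Pool.Agent.Helper5.RV.Lower
import Pool.Agent.Helper62.RV.Num
import Pool.Agent.Helper71.RV.Voter
import Pool.Agent.Helper95.RV.Mat

/-!
# Votes with messages: the complete theorem
-/

set_option autoImplicit false

namespace Pool.Agent.Helper5.RV

open Pool.Agent.Helper22.ETModel Pool.Agent.Helper8.VT Pool.Agent.Helper8.UV

theorem lower : LowerStatement :=
  lower_main (fun hm0 hm H h => Pool.Agent.Helper71.RV.nform_conv hm0 hm H h)
    Pool.Agent.Helper62.RV.numeric

theorem matrices : MatrixStatement := Pool.Agent.Helper95.RV.matrix_of_lower lower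

end Pool.Agent.Helper5.RV
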